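import Mathlib

/-!
# Harish-Chandra modules of `SL₂(ℝ) × SL₂(ℝ)`, `G`-continuous norms and Sobolev norms
-/

set_option autoImplicit false

namespace Pool.Agent.NH57.SobD

open Matrix Complex Topology Filter

/-- The group `SL₂(ℝ)`, with its usual topology. -/
abbrev SL2 : Type := Matrix.SpecialLinearGroup (Fin 2) ℝ

/-- The real reductive group `G = SL₂(ℝ) × SL₂(ℝ)`. -/
abbrev G : Type := SL2 × SL2

/-- Real `2 × 2` matrices. -/
abbrev M2 : Type := Matrix (Fin 2) (Fin 2) ℝ

/-- The Lie algebra `𝔤 = 𝔰𝔩₂(ℝ) × 𝔰𝔩₂(ℝ)` of `G`: the pairs of matrices with trace zero. -/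
structure Lg where
  /-- the first component -/
  fst : M2
  /-- the second component -/
  snd : M2
  tr_fst : fst.trace = 0
  tr_snd : snd.trace = 0

/-- The rotation by the angle `θ`, where `z = e^{iθ}`. -/
noncomputable def rot (z : Circle) : SL2 :=
  ⟨!![(z : ℂ).re, -(z : ℂ).im; (z : ℂ).im, (z : ℂ).re], by
    have h := Circle.normSq_coe z
    rw [Complex.normSq_apply] at h
    rw [Matrix.det_fin_two_of]
    linarith⟩

/-- `π` is a representation of the Lie algebra `𝔤` on `V` (by `ℂ`-linear maps). -/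
structure IsLieRep {V : Type} [AddCommGroup V] [Module ℂ V] (π : Lg → V → V) : Prop where
  map_add : ∀ X v w, π X (v + w) = π X v + π X w
  map_smul : ∀ X (a : ℂ) v, π X (a • v) = a • π X v
  add : ∀ X Y Z : Lg, Z.fst = X.fst + Y.fst → Z.snd = X.snd + Y.snd → ∀ v, π Z v = π X v + π Y v
  smul : ∀ (a : ℝ) (X Z : Lg), Z.fst = a • X.fst → Z.snd = a • X.snd →
    ∀ v, π Z v = (a : ℂ) • π X v
  bracket : ∀ X Y Z : Lg, Z.fst = X.fst * Y.fst - Y.fst * X.fst →
    Z.snd = X.snd * Y.snd - Y.snd * X.snd → ∀ v, π Z v = π X (π Y v) - π Y (π X v)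

/-- `κ` is a representation of the maximal compact subgroup `K = SO(2) × SO(2)` of `G` on `V` (by
`ℂ`-linear maps), where `SO(2) × SO(2)` is identified with `Circle × Circle` by
`(z, w) ↦ (rot z, rot w)`. -/
structure IsKRep {V : Type} [AddCommGroup V] [Module ℂ V] (κ : Circle → Circle → V → V) :
    Prop where
  map_add : ∀ z w u v, κ z w (u + v) = κ z w u + κ z w v
  map_smul : ∀ z w (a : ℂ) v, κ z w (a • v) = a • κ z w v
  one : ∀ v, κ 1 1 v = v
  mul : ∀ z w z' w' v, κ (z * z') (w * w') v = κ z w (κ z' w' v)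

/-- `v` is a vector of `K`-type `(m, n)`: the rotations by the angles `θ` and `φ` act on `v` by the
scalar `e^{i(mθ + nφ)}`. -/
def IsWeight {V : Type} [AddCommGroup V] [Module ℂ V] (κ : Circle → Circle → V → V) (m n : ℤ)
    (v : V) : Prop :=
  ∀ z w : Circle, κ z w v = ((z : ℂ) ^ m * (w : ℂ) ^ n) • v

/-- `Y = Ad(k) X` for `k = (rot z, rot w)`. -/
def IsAd (z w : Circle) (X Y : Lg) : Prop :=
  Y.fst = (rot z).1 * X.fst * (rot z)⁻¹.1 ∧ Y.snd = (rot w).1 * X.snd * (rot w)⁻¹.1

/-- The actions of `𝔤` and of `K` are compatible: with the adjoint action of `K` on `𝔤`, and on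
the Lie algebra of `K` the action `π` is the derivative of `κ`. -/
structure IsCompatible {V : Type} [AddCommGroup V] [Module ℂ V] (π : Lg → V → V)
    (κ : Circle → Circle → V → V) : Prop where
  ad : ∀ z w X Y, IsAd z w X Y → ∀ v, κ z w (π X v) = π Y (κ z w v)
  left : ∀ X : Lg, X.fst = !![0, -1; 1, 0] → X.snd = 0 → ∀ m n v, IsWeight κ m n v →
    π X v = ((m : ℂ) * I) • v
  right : ∀ X : Lg, X.fst = 0 → X.snd = !![0, -1; 1, 0] → ∀ m n v, IsWeight κ m n v →
    π X v = ((n : ℂ) * I) • v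

/-- A Harish-Chandra module of `G`: a finitely generated admissible `(𝔤, K)`-module. -/
structure HCModule (V : Type) [AddCommGroup V] [Module ℂ V] where
  /-- the action of the Lie algebra -/
  π : Lg → V → V
  /-- the action of `K` -/
  κ : Circle → Circle → V → V
  lie_rep : IsLieRep π
  k_rep : IsKRep κ
  compatible : IsCompatible π κ
  /-- `V` is the (algebraic) sum of the `K`-isotypic components -/
  spanned : Submodule.span ℂ {v | ∃ m n, IsWeight κ m n v} = ⊤
  /-- finite generation over the enveloping algebra -/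
  fg : ∃ S : Set V, S.Finite ∧ ∀ W : Submodule ℂ V, S ⊆ W → (∀ X, ∀ w ∈ W, π X w ∈ W) → W = ⊤
  /-- admissibility: the isotypic components are finite dimensional -/
  admissible : ∀ m n, ∃ S : Set V, S.Finite ∧ ∀ v, IsWeight κ m n v → v ∈ Submodule.span ℂ S

/-- `p` is a norm. -/
def IsNorm {V : Type} [AddCommGroup V] [Module ℂ V] (p : V → ℝ) : Prop :=
  (∀ v w, p (v + w) ≤ p v + p w) ∧ (∀ (a : ℂ) v, p (a • v) = ‖a‖ * p v) ∧ ∀ v, p v = 0 → v = 0

/-- `ρ` is a continuous representation of `G` on the normed space `E` (by bounded operators; the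
map `G × E → E` is continuous). -/
structure IsContRep {E : Type} [NormedAddCommGroup E] [NormedSpace ℂ E] (ρ : G → E → E) :
    Prop where
  map_add : ∀ g x y, ρ g (x + y) = ρ g x + ρ g y
  map_smul : ∀ g (a : ℂ) x, ρ g (a • x) = a • ρ g x
  one : ∀ x, ρ 1 x = x
  mul : ∀ g h x, ρ (g * h) x = ρ g (ρ h x)
  cont : Continuous (fun x : G × E => ρ x.1 x.2)

/-- `γ` is a one parameter subgroup of `G` with `γ'(0) = X`. -/
structure IsOneParam (γ : ℝ → G) (X : Lg) : Prop where
  add : ∀ s t, γ (s + t) = γ s * γ t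
  deriv_fst : ∀ i j, HasDerivAt (fun t => (γ t).1.1 i j) (X.fst i j) 0
  deriv_snd : ∀ i j, HasDerivAt (fun t => (γ t).2.1 i j) (X.snd i j) 0

/-- `x` is the derivative of `f` at `0`. -/
def IsDeriv {E : Type} [NormedAddCommGroup E] [NormedSpace ℂ E] (f : ℝ → E) (x : E) : Prop :=
  Tendsto (fun t : ℝ => ((t : ℂ)⁻¹) • (f t - f 0)) (𝓝[≠] 0) (𝓝 x)

/-- The norm `p` on the Harish-Chandra module `M` is `G`-continuous: the completion `E` of
`(V, p)` carries a continuous representation `ρ` of `G` by bounded operators which on (the image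
of) `V` induces the given actions of `K` and of `𝔤`, that is, for every `X ∈ 𝔤` and every one
parameter subgroup `γ` of `G` with `γ'(0) = X` the derivative of `t ↦ ρ(γ(t)) v` at `0` is `X v`
for all `v ∈ V`. (All iterated derivatives of the vectors of `V` along one parameter subgroups
then exist and lie in `V`, so that `V` consists of smooth vectors, and they are `K`-finite.) -/
def GContinuous {V : Type} [AddCommGroup V] [Module ℂ V] (M : HCModule V) (p : V → ℝ) : Prop :=
  ∃ (E : Type) (_ : NormedAddCommGroup E) (_ : NormedSpace ℂ E) (_ : CompleteSpace E)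
    (ι : V → E) (ρ : G → E → E),
    IsLinearMap ℂ ι ∧ (∀ v, ‖ι v‖ = p v) ∧ DenseRange ι ∧ IsContRep ρ ∧
    (∀ z w v, ρ (rot z, rot w) (ι v) = ι (M.κ z w v)) ∧
    ∀ γ X, IsOneParam γ X → ∀ v, IsDeriv (fun t => ρ (γ t) (ι v)) (ι (M.π X v))

/-- `D` is the operator `D_s = (1 + Δ_K)^{s/2}`, where `Δ_K` acts on the vectors of `K`-type
`(m, n)` by `c (m² + n²)`. The number `c > 0` depends on the normalisation of the invariant form
on `𝔤` (`c = 1/8` for the Killing form). -/
def IsDs {V : Type} [AddCommGroup V] [Module ℂ V] (M : HCModule V) (c s : ℝ) (D : V →ₗ[ℂ] V) :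
    Prop :=
  ∀ m n v, IsWeight M.κ m n v →
    D v = (((1 + c * ((m : ℝ) ^ 2 + (n : ℝ) ^ 2)) ^ (s / 2) : ℝ) : ℂ) • v

end Pool.Agent.NH57.SobD
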