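import Mathlib
import Pool.Agent.NH57.SobD.Defs
import Pool.Agent.NH57.Sob.Test

/-!
Transfer of the results of `Pool.Agent.NH57.Sob` to the definitions in `Pool.Agent.NH57.SobD.Defs`.
-/

set_option autoImplicit false

namespace Pool.Agent.NH57.SobD

open Matrix Complex Topology Filter ComplexConjugate
open Pool.Agent.NH57.Sob (V e kap kapHom Pi' io rho mat cis MM Dop)

lemma mat_rot (z : Circle) :
    mat (rot z) = !![(z : ℂ).re, -(z : ℂ).im; (z : ℂ).im, (z : ℂ).re] := rfl

lemma circ (z : Circle) : (z : ℂ).re * (z : ℂ).re + (z : ℂ).im * (z : ℂ).im = 1 := by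
  have h := Circle.normSq_coe z
  rwa [Complex.normSq_apply] at h

lemma orth_rot (z : Circle) : (mat (rot z))ᵀ * mat (rot z) = 1 := by
  rw [mat_rot]
  ext i j
  have := circ z
  fin_cases i <;> fin_cases j <;> simp [Matrix.mul_apply, Fin.sum_univ_two] <;> linarith

lemma cis_rot' (z : Circle) : cis (mat (rot z)) = (z : ℂ) := by
  rw [mat_rot]
  apply Complex.ext <;> simp [cis]

lemma mat_inj {a b : SL2} (h : mat a = mat b) : a = b := Subtype.ext h

lemma rot_mul (z w : Circle) : rot (z * w) = rot z * rot w := by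
  apply mat_inj
  rw [map_mul, mat_rot, mat_rot, mat_rot, Circle.coe_mul]
  ext i j
  fin_cases i <;> fin_cases j <;> simp [Matrix.mul_apply, Fin.sum_univ_two] <;> ring

lemma rot_one : rot 1 = 1 := by
  apply mat_inj
  rw [map_one, mat_rot, Circle.coe_one]
  ext i j
  fin_cases i <;> fin_cases j <;> simp

/-- the element of `K` -/
noncomputable def toK (z w : Circle) : Sob.K := ⟨(rot z, rot w), orth_rot z, orth_rot w⟩

lemma toK_mul (z w z' w' : Circle) : toK (z * z') (w * w') = toK z w * toK z' w' := by
  apply Subtype.ext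
  show (rot (z * z'), rot (w * w')) = _
  rw [rot_mul, rot_mul]
  rfl

lemma toK_one : toK 1 1 = 1 := by
  apply Subtype.ext
  show (rot 1, rot 1) = _
  rw [rot_one]
  rfl

lemma exists_rot {g : SL2} (h : (mat g)ᵀ * mat g = 1) : ∃ z : Circle, rot z = g := by
  have h1 : conj (cis (mat g)) = (cis (mat g))⁻¹ := Sob.cis_conj' h
  have h0 := Sob.cis_ne h
  have h2 : cis (mat g) * conj (cis (mat g)) = 1 := by rw [h1, mul_inv_cancel₀ h0]
  have h3 : ‖cis (mat g)‖ = 1 := by
    rw [Complex.mul_conj] at h2
    have h4 : Complex.normSq (cis (mat g)) = 1 := by exact_mod_cast h2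
    rw [Complex.normSq_eq_norm_sq] at h4
    exact (pow_eq_one_iff_of_nonneg (norm_nonneg _) two_ne_zero).mp h4
  refine ⟨⟨cis (mat g), mem_sphere_zero_iff_norm.2 h3⟩, ?_⟩
  apply mat_inj
  have hre : (cis (mat g)).re = mat g 0 0 := by simp [cis]
  have him : (cis (mat g)).im = mat g 1 0 := by simp [cis]
  show !![(cis (mat g)).re, -(cis (mat g)).im; (cis (mat g)).im, (cis (mat g)).re] = mat g
  rw [hre, him]
  have a := Sob.cis_rot h
  obtain ⟨a1, a2⟩ := a
  have a3 : (Sob.be (mat g)).re = 0 := by rw [a2]; rfl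
  have a4 : (Sob.be (mat g)).im = 0 := by rw [a2]; rfl
  simp only [Sob.be] at a3 a4
  ext i j
  fin_cases i <;> fin_cases j <;> simp <;> linarith

lemma toK_surj (k : Sob.K) : ∃ z w, toK z w = k := by
  obtain ⟨z, hz⟩ := exists_rot k.2.1
  obtain ⟨w, hw⟩ := exists_rot k.2.2
  exact ⟨z, w, Subtype.ext (Prod.ext hz hw)⟩

/-- conversion of elements of the Lie algebra -/
def toL (X : Lg) : Sob.Lg := ⟨(X.fst, X.snd), X.tr_fst, X.tr_snd⟩
/-- conversion of elements of the Lie algebra -/
def ofL (X : Sob.Lg) : Lg := ⟨X.1.1, X.1.2, X.2.1, X.2.2⟩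

lemma toL_ofL (X : Sob.Lg) : toL (ofL X) = X := rfl
lemma ofL_toL (X : Lg) : ofL (toL X) = X := rfl

/-- the new action of the Lie algebra -/
noncomputable def piD (X : Lg) (v : V) : V := MM.π (toL X) v
/-- the new action of `K` -/
noncomputable def kaD (z w : Circle) (v : V) : V := MM.κ (toK z w) v

lemma weight_iff {m n : ℤ} {v : V} : IsWeight kaD m n v ↔ Sob.IsWeight MM.κ m n v := by
  constructor
  · intro h k
    obtain ⟨z, w, rfl⟩ := toK_surj k
    have h1 := h z w
    show kaD z w v = _
    rw [h1]
    show _ = (cis (mat (rot z)) ^ m * cis (mat (rot w)) ^ n) • v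
    rw [cis_rot', cis_rot']
  · intro h z w
    have h1 := h (toK z w)
    show MM.κ (toK z w) v = _
    rw [h1]
    show (cis (mat (rot z)) ^ m * cis (mat (rot w)) ^ n) • v = _
    rw [cis_rot', cis_rot']

/-- the Harish-Chandra module -/
noncomputable def MD : HCModule V where
  π := piD
  κ := kaD
  lie_rep := {
    map_add := fun X v w => map_add _ _ _
    map_smul := fun X a v => map_smul _ _ _
    add := by
      intro X Y Z h1 h2 v
      have h : toL Z = toL X + toL Y := Subtype.ext (Prod.ext h1 h2)
      show MM.π (toL Z) v = MM.π (toL X) v + MM.π (toL Y) v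
      rw [h, MM.π_add]
      rfl
    smul := by
      intro a X Z h1 h2 v
      have h : toL Z = a • toL X := Subtype.ext (Prod.ext h1 h2)
      show MM.π (toL Z) v = (a : ℂ) • MM.π (toL X) v
      rw [h, MM.π_smul]
      rfl
    bracket := by
      intro X Y Z h1 h2 v
      have h := MM.π_bracket (toL X) (toL Y) (toL Z) (Prod.ext h1 h2)
      show MM.π (toL Z) v = MM.π (toL X) (MM.π (toL Y) v) - MM.π (toL Y) (MM.π (toL X) v)
      rw [h]
      rfl }
  k_rep := {
    map_add := fun z w u v => map_add _ _ _
    map_smul := fun z w a v => map_smul _ _ _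
    one := by
      intro v
      show MM.κ (toK 1 1) v = v
      rw [toK_one, map_one]
      rfl
    mul := by
      intro z w z' w' v
      show MM.κ (toK (z * z') (w * w')) v = MM.κ (toK z w) (MM.κ (toK z' w') v)
      rw [toK_mul, map_mul]
      rfl }
  compatible := {
    ad := by
      intro z w X Y h v
      have h1 := MM.κ_π (toK z w) (toL X) (toL Y) (Prod.ext h.1 h.2)
      exact LinearMap.congr_fun h1 v
    left := by
      intro X h1 h2 m n v hv
      exact MM.π_left (toL X) (Prod.ext h1 h2) m n v (weight_iff.mp hv)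
    right := by
      intro X h1 h2 m n v hv
      exact MM.π_right (toL X) (Prod.ext h1 h2) m n v (weight_iff.mp hv) }
  spanned := by
    rw [← MM.spanned]
    congr 1
    ext v
    constructor
    · rintro ⟨m, n, h⟩
      exact ⟨m, n, weight_iff.mp h⟩
    · rintro ⟨m, n, h⟩
      exact ⟨m, n, weight_iff.mpr h⟩
  fg := by
    obtain ⟨S, hS, h⟩ := MM.fg
    refine ⟨S, hS, fun W hW hX => h W hW ?_⟩
    intro X w hw
    exact hX (ofL X) w hw
  admissible := by
    intro m n
    obtain ⟨S, hS, h⟩ := MM.admissible m n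
    exact ⟨S, hS, fun v hv => h v (weight_iff.mp hv)⟩

lemma isDeriv_iff {E : Type} [NormedAddCommGroup E] [NormedSpace ℂ E] (f : ℝ → E) (x : E) :
    IsDeriv f x ↔ HasDerivAt f x 0 := by
  rw [hasDerivAt_iff_tendsto_slope_zero, IsDeriv]
  have h : (fun t : ℝ => ((t : ℂ)⁻¹) • (f t - f 0)) = fun t : ℝ => t⁻¹ • (f (0 + t) - f 0) := by
    funext t
    rw [zero_add, ← Complex.ofReal_inv, Complex.coe_smul]
  rw [h]

/-- `p` is `G`-continuous -/
theorem gcont_MD : GContinuous MD (fun v => ‖io v‖) := by
  refine ⟨Sob.E, inferInstance, inferInstance, inferInstance, io, fun g x => rho g x,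
    io.isLinear, fun _ => rfl, Sob.dense_io, ?_, ?_, ?_⟩
  · exact {
      map_add := fun g x y => map_add _ _ _
      map_smul := fun g a x => map_smul _ _ _
      one := by
        intro x
        rw [map_one]
        rfl
      mul := by
        intro g h x
        rw [map_mul]
        rfl
      cont := Sob.continuous_rho }
  · intro z w v
    exact Sob.rho_kap (toK z w) v
  · intro γ X hγ v
    rw [isDeriv_iff]
    have h0 : γ 0 = 1 := by
      have := hγ.add 0 0
      rw [add_zero] at this
      exact left_eq_mul.mp this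
    let γ' : Multiplicative ℝ →* G :=
      { toFun := fun t => γ t.toAdd
        map_one' := h0
        map_mul' := fun s t => hγ.add _ _ }
    exact Sob.rho_deriv γ' (toL X) hγ.deriv_fst hγ.deriv_snd v

/-- transfer of `G`-continuity -/
theorem gcont_transfer {p : V → ℝ} (h : GContinuous MD p) : Sob.GContinuous MM p := by
  obtain ⟨E, i1, i2, i3, ι, ρ, hι, hn, hd, hρ, hK, hX⟩ := h
  have hc : ∀ g, Continuous (ρ g) := by
    intro g
    have h1 : Continuous (fun x : E => (g, x)) := by fun_prop
    exact hρ.cont.comp h1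
  let ρ' : G →* (E →L[ℂ] E) :=
    { toFun := fun g =>
        { toFun := ρ g
          map_add' := hρ.map_add g
          map_smul' := hρ.map_smul g
          cont := hc g }
      map_one' := by
        ext x
        exact hρ.one x
      map_mul' := by
        intro g g'
        ext x
        exact hρ.mul g g' x }
  refine ⟨E, i1, i2, i3, hι.mk' ι, ρ', hn, hd, hρ.cont, ?_, ?_⟩
  · intro k v
    obtain ⟨z, w, rfl⟩ := toK_surj k
    exact hK z w v
  · intro γ X h1 h2 v
    have h3 : IsOneParam (fun t => γ (Multiplicative.ofAdd t)) (ofL X) :=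
      { add := by
          intro s t
          rw [ofAdd_add, map_mul]
        deriv_fst := h1
        deriv_snd := h2 }
    exact (isDeriv_iff _ _).mp (hX _ _ h3 v)

end Pool.Agent.NH57.SobD
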